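import Pool.Agent.H72.GZ.EGYb
import Pool.Agent.H34.GM.BDD

/-!
# Row EGY of the board gz (MP_52e316_nt): the energy in the cusp
-/

set_option autoImplicit false

open Pool.Agent.H34.GM Pool.Agent.H34.GZ

namespace Pool.Agent.H72.GZ

lemma chain {m : ℕ} (a : Fin m → ℝ) (Y : ℝ) (hY : 1 ≤ Y)
    (h : ∀ i j : Fin m, (i : ℕ) + 1 = j → a j ≤ Y * a i) :
    ∀ (d : ℕ) (i j : Fin m), (j : ℕ) = i + d → a j ≤ Y ^ d * a i := by
  intro d
  induction d with
  | zero =>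
      intro i j hij
      have : j = i := Fin.ext (by omega)
      subst this
      simp
  | succ d ih =>
      intro i j hij
      have hlt : (i : ℕ) + d < m := by have := j.2; omega
      have h1 := ih i ⟨i + d, hlt⟩ rfl
      have h2 := h ⟨i + d, hlt⟩ j (by simp only; omega)
      calc a j ≤ Y * a ⟨i + d, hlt⟩ := h2
        _ ≤ Y * (Y ^ d * a i) := mul_le_mul_of_nonneg_left h1 (by linarith)
        _ = Y ^ (d + 1) * a i := by ring

lemma chain2 {m : ℕ} (a : Fin m → ℝ) (Y : ℝ) (hY : 1 ≤ Y) (h0 : ∀ i, 0 < a i)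
    (h : ∀ i j : Fin m, (i : ℕ) + 1 = j → a j ≤ Y * a i) (ho : ∀ i j, i ≤ j → a i ≤ 2 ^ m * a j)
    (i j : Fin m) : a j ≤ 2 ^ m * Y ^ m * a i := by
  have h2 : (1 : ℝ) ≤ 2 ^ m := one_le_pow₀ (by norm_num)
  have h3 : (1 : ℝ) ≤ Y ^ m := one_le_pow₀ hY
  rcases le_total i j with hij | hij
  · have h1 := chain a Y hY h ((j : ℕ) - i) i j (by have : (i : ℕ) ≤ j := hij; omega)
    have h4 : Y ^ ((j : ℕ) - i) ≤ Y ^ m := pow_le_pow_right₀ hY (by have := j.2; omega)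
    calc a j ≤ Y ^ ((j : ℕ) - i) * a i := h1
      _ ≤ Y ^ m * a i := mul_le_mul_of_nonneg_right h4 (h0 i).le
      _ ≤ 2 ^ m * Y ^ m * a i := by
          apply mul_le_mul_of_nonneg_right _ (h0 i).le
          nlinarith
  · calc a j ≤ 2 ^ m * a i := ho j i hij
      _ ≤ 2 ^ m * Y ^ m * a i := by
          apply mul_le_mul_of_nonneg_right _ (h0 i).le
          nlinarith

lemma sz_one {m : ℕ} : sz ((1 : Mat m)⁻¹) ≤ 1 := by
  rw [inv_one]
  unfold sz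
  rw [pi_norm_le_iff_of_nonneg zero_le_one]
  intro i
  rw [pi_norm_le_iff_of_nonneg zero_le_one]
  intro j
  rw [Matrix.one_apply]
  split_ifs <;> simp

/-- the final comparison of the constants -/
lemma fin_cmp {m K₄ : ℕ} {C₁ H₀ D₀ D₁ C₇ s y Y t E : ℝ} (hC₁ : 1 ≤ C₁) (hH₀ : 1 ≤ H₀)
    (hD₀ : 0 ≤ D₀) (hD₁ : 0 ≤ D₁) (hC₇ : 0 ≤ C₇) (hs : 0 ≤ s) (hy : 1 ≤ y) (hY : 1 ≤ Y)
    (ht : 0 ≤ t) (hE0 : 0 ≤ E)
    (hE : E ≤ Real.logb 2 (2 ^ m * (C₁ * (2 ^ m * Y ^ m)) ^ m * (y ^ 2 * Real.exp m)) + 2) :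
    (2 * E + 1) ^ m * (D₀ * (1 + Real.log (H₀ * y ^ 2)) ^ K₄ *
      (C₇ * (y ^ 2) ^ m * (1 + y ^ 2 / t) ^ m * (D₁ * s))) ≤
    (2 * ((m * Real.log 2 + m * Real.log C₁ + m * m * Real.log 2 + m * m + 2 + m) /
      Real.log 2) + 5) ^ m * D₀ * (1 + Real.log H₀ + 2) ^ K₄ * C₇ * D₁ *
      (1 + Real.log (y * Y)) ^ (K₄ + m) * y ^ (2 * m) * (1 + y ^ 2 / t) ^ m * s := by
  have hl2 : 0 < Real.log 2 := Real.log_pos (by norm_num)
  have hly : 0 ≤ Real.log y := Real.log_nonneg hy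
  have hlY : 0 ≤ Real.log Y := Real.log_nonneg hY
  have hlC : 0 ≤ Real.log C₁ := Real.log_nonneg hC₁
  have hlH : 0 ≤ Real.log H₀ := Real.log_nonneg hH₀
  have hyY : Real.log (y * Y) = Real.log y + Real.log Y :=
    Real.log_mul (by linarith) (by linarith)
  obtain ⟨l, hl⟩ : ∃ l, l = 1 + Real.log (y * Y) := ⟨_, rfl⟩
  have hl1 : 1 ≤ l := by rw [hl, hyY]; linarith
  have e1 : Real.log (H₀ * y ^ 2) = Real.log H₀ + 2 * Real.log y := by
    rw [Real.log_mul (by linarith) (by positivity), Real.log_pow]; push_cast; ring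
  have e2 : Real.log (2 ^ m * (C₁ * (2 ^ m * Y ^ m)) ^ m * (y ^ 2 * Real.exp m)) =
      m * Real.log 2 + m * (Real.log C₁ + (m * Real.log 2 + m * Real.log Y)) +
        (2 * Real.log y + m) := by
    have hC0 : C₁ ≠ 0 := by linarith
    have hY0 : Y ≠ 0 := by linarith
    have hy0 : y ≠ 0 := by linarith
    rw [Real.log_mul (by positivity) (by positivity), Real.log_mul (by positivity) (by positivity),
      Real.log_pow, Real.log_pow, Real.log_mul hC0 (by positivity),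
      Real.log_mul (by positivity) (by positivity), Real.log_pow, Real.log_pow,
      Real.log_mul (by positivity) (by positivity), Real.log_pow, Real.log_exp]
    push_cast
    ring
  have hm0 : (0 : ℝ) ≤ m := Nat.cast_nonneg m
  -- the class count
  have f1 : 2 * E + 1 ≤ (2 * ((m * Real.log 2 + m * Real.log C₁ + m * m * Real.log 2 + m * m +
      2 + m) / Real.log 2) + 5) * l := by
    have g1 : Real.logb 2 (2 ^ m * (C₁ * (2 ^ m * Y ^ m)) ^ m * (y ^ 2 * Real.exp m)) ≤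
        (m * Real.log 2 + m * Real.log C₁ + m * m * Real.log 2 + m * m + 2 + m) /
          Real.log 2 * l := by
      rw [Real.logb, e2, div_mul_eq_mul_div]
      apply div_le_div_of_nonneg_right _ hl2.le
      rw [hl, hyY]
      have q1 : 0 ≤ m * Real.log 2 := mul_nonneg hm0 hl2.le
      have q2 : 0 ≤ m * Real.log C₁ := mul_nonneg hm0 hlC
      have q3 : 0 ≤ m * m * Real.log 2 := mul_nonneg (mul_nonneg hm0 hm0) hl2.le
      have q4 : (0 : ℝ) ≤ m * m := mul_nonneg hm0 hm0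
      have r1 : 0 ≤ Real.log y + Real.log Y := by linarith
      have r2 : (0 : ℝ) ≤ (m * m) * Real.log y := mul_nonneg q4 hly
      nlinarith [mul_nonneg q1 r1, mul_nonneg q2 r1, mul_nonneg q3 r1, mul_nonneg hm0 r1]
    calc 2 * E + 1 ≤ 2 * ((m * Real.log 2 + m * Real.log C₁ + m * m * Real.log 2 + m * m +
          2 + m) / Real.log 2 * l) + 5 := by linarith
      _ ≤ _ := by
          rw [add_mul, mul_assoc]
          linarith
  have f2 : 1 + Real.log (H₀ * y ^ 2) ≤ (1 + Real.log H₀ + 2) * l := by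
    rw [e1, hl, hyY]
    nlinarith [mul_nonneg hlH hly, mul_nonneg hlH hlY]
  have f3 : 0 ≤ 1 + Real.log (H₀ * y ^ 2) := by rw [e1]; linarith
  have p1 : (2 * E + 1) ^ m ≤ ((2 * ((m * Real.log 2 + m * Real.log C₁ + m * m * Real.log 2 +
      m * m + 2 + m) / Real.log 2) + 5) * l) ^ m := pow_le_pow_left₀ (by linarith) f1 m
  have p2 : (1 + Real.log (H₀ * y ^ 2)) ^ K₄ ≤ ((1 + Real.log H₀ + 2) * l) ^ K₄ :=
    pow_le_pow_left₀ f3 f2 K₄
  have ht1 : 0 ≤ 1 + y ^ 2 / t := by positivity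
  obtain ⟨A, hA⟩ : ∃ A, A = (2 * ((m * Real.log 2 + m * Real.log C₁ + m * m * Real.log 2 +
      m * m + 2 + m) / Real.log 2) + 5) := ⟨_, rfl⟩
  rw [← hA] at p1 ⊢
  have hA0 : 0 ≤ (A * l) ^ m := by
    have : 0 ≤ A := by
      rw [hA]; positivity
    positivity
  rw [← hl]
  calc (2 * E + 1) ^ m * (D₀ * (1 + Real.log (H₀ * y ^ 2)) ^ K₄ *
      (C₇ * (y ^ 2) ^ m * (1 + y ^ 2 / t) ^ m * (D₁ * s))) ≤
      (A * l) ^ m * (D₀ * ((1 + Real.log H₀ + 2) * l) ^ K₄ *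
      (C₇ * (y ^ 2) ^ m * (1 + y ^ 2 / t) ^ m * (D₁ * s))) := by
        apply mul_le_mul p1 _ (by positivity) hA0
        apply mul_le_mul_of_nonneg_right _ (by positivity)
        exact mul_le_mul_of_nonneg_left p2 hD₀
    _ = _ := by
        rw [mul_pow, mul_pow, pow_add, pow_mul]
        ring

theorem pf_EGY : T_CNT → T_CMA → T_IDX → T_DAV → T_EGX → T_MUL → T_EGY := by
  classical
  intro hCNT hCMA hIDX hDAV hEGX hMUL m hm C0 hC0
  obtain ⟨C₁', hC₁'0, hC₁'⟩ := hCMA m 1 hm zero_lt_one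
  obtain ⟨C₁, hC₁e⟩ : ∃ C₁ : ℝ, C₁ = max C₁' 1 := ⟨_, rfl⟩
  have hC₁1 : 1 ≤ C₁ := by rw [hC₁e]; exact le_max_right _ _
  have hC₁l : C₁' ≤ C₁ := by rw [hC₁e]; exact le_max_left _ _
  obtain ⟨C₂, hC₂, hMUL⟩ := hMUL m hm
  obtain ⟨C₄, K₄, hC₄, hDAV⟩ := hDAV m hm
  have hc7 : (0 : ℝ) < 2 ^ m * C₁ + (2 ^ (m + 1)) ^ m := by positivity
  obtain ⟨C₇, hC₇, hEGX⟩ := hEGX m _ hm hc7
  obtain ⟨H₀, hH₀⟩ : ∃ H₀ : ℝ, H₀ = m.factorial * (C₂ * (m * 2 ^ m) * 2 ^ (m + 1)) ^ m *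
    Real.exp m := ⟨_, rfl⟩
  have hm1 : (1 : ℝ) ≤ m := by exact_mod_cast hm
  have h2m : (1 : ℝ) ≤ 2 ^ m := one_le_pow₀ (by norm_num)
  have h2m1 : (1 : ℝ) ≤ 2 ^ (m + 1) := one_le_pow₀ (by norm_num)
  have hH₀1 : 1 ≤ H₀ := by
    rw [hH₀]
    have hfac : (1 : ℝ) ≤ m.factorial := by
      exact_mod_cast Nat.one_le_iff_ne_zero.2 (Nat.factorial_ne_zero m)
    have hexp : 1 ≤ Real.exp m := Real.one_le_exp (by linarith)
    have hM : (1 : ℝ) ≤ m * 2 ^ m := by nlinarith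
    have h1 : 1 ≤ C₂ * (m * 2 ^ m) := by nlinarith
    have hCM2 : 1 ≤ (C₂ * (m * 2 ^ m) * 2 ^ (m + 1)) ^ m := one_le_pow₀ (by nlinarith)
    have h2 : 1 ≤ m.factorial * (C₂ * (m * 2 ^ m) * 2 ^ (m + 1)) ^ m := by nlinarith
    nlinarith
  obtain ⟨D₀, hD₀⟩ : ∃ D₀ : ℝ, D₀ = (1 + C0 * 2 ^ m) ^ (m * m) *
    (1 + C₂ * (m * 2 ^ m) * 2 ^ m) ^ (m * m) * C₄ := ⟨_, rfl⟩
  have hD₀0 : 0 < D₀ := by
    rw [hD₀]
    have : 0 < C₂ := by linarith
    positivity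
  have hl2 : 0 < Real.log 2 := Real.log_pos (by norm_num)
  have hlC : 0 ≤ Real.log C₁ := Real.log_nonneg hC₁1
  have hlH : 0 ≤ Real.log H₀ := Real.log_nonneg hH₀1
  refine ⟨(2 * ((m * Real.log 2 + m * Real.log C₁ + m * m * Real.log 2 + m * m + 2 + m) /
      Real.log 2) + 5) ^ m * D₀ * (1 + Real.log H₀ + 2) ^ K₄ * C₇ * ((2 : ℝ) ^ m) ^ (m * m),
      K₄ + m, by positivity, ?_⟩
  intro q hq b n a k hs haN1 haN2 Y hY hgap y hy sel vs hsel
  -- determinants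
  have hdetE : aN b ^ m = |b.det| := bdd_aN_pow hm b
  have hdet1 : 1 ≤ |b.det| := by rw [← hdetE]; exact one_le_pow₀ haN1
  have hdet2 : |b.det| ≤ Real.exp m := by
    rw [← hdetE]
    calc aN b ^ m ≤ Real.exp 1 ^ m := pow_le_pow_left₀ (by linarith) haN2.le m
      _ = Real.exp m := by rw [← Real.exp_nat_mul, mul_one]
  have ha0 := hs.pos
  have hprod : |b.det| = ∏ j, a j := (hCNT m b n a k hs).2.2.2
  obtain ⟨R, hR⟩ : ∃ R : ℝ, R = 2 ^ m * Y ^ m := ⟨_, rfl⟩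
  have hYm : 1 ≤ Y ^ m := one_le_pow₀ hY
  have hR1 : 1 ≤ R := by rw [hR]; nlinarith
  have hRa : ∀ i, 1 ≤ R * a i := by
    apply a_low a R ha0 hR1 _ (by rw [← hprod]; exact hdet1)
    intro i j
    rw [hR]
    exact chain2 a Y hY ha0 hgap hs.ord i j
  -- comparison with the sublattices
  have hCv : ∀ L : AddSubgroup (Fin m → ℤ), L.index ≠ 0 → ∀ i, a i ≤ C₁ * vs L i := by
    intro L hL i
    obtain ⟨n', k', hs'⟩ := hsel.sgl L hL
    have h1 := hC₁' b n a k (cR (sel L) * b) n' (vs L) k' (sel L) 1 hs hs' (hsel.det L hL)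
      (by rw [Matrix.det_one]; exact one_ne_zero) sz_one (by rw [mul_one]) i
    exact h1.trans (mul_le_mul_of_nonneg_right hC₁l (hs'.pos i).le)
  have hvpos : ∀ L : AddSubgroup (Fin m → ℤ), L.index ≠ 0 → ∀ i, 0 < vs L i := by
    intro L hL i
    obtain ⟨n', k', hs'⟩ := hsel.sgl L hL
    exact hs'.pos i
  have hPv : ∀ L : AddSubgroup (Fin m → ℤ), L.index ≠ 0 →
      ∏ i, vs L i = (L.index : ℝ) * |b.det| := by
    intro L hL
    obtain ⟨n', k', hs'⟩ := hsel.sgl L hL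
    rw [← (hCNT m _ n' (vs L) k' hs').2.2.2, Matrix.det_mul, abs_mul, det_cR]
    congr 1
    have h1 := (hIDX m).1 (sel L) (hsel.det L hL)
    rw [hsel.gen L hL] at h1
    rw [h1, Nat.cast_natAbs, Int.cast_abs]
  -- monotone majorants
  have hmaj : ∀ L : AddSubgroup (Fin m → ℤ), ∃ A : Fin m → ℝ, L.index ≠ 0 →
      (Monotone A ∧ (∀ j, vs L j ≤ A j) ∧ (∀ j, A j ≤ 2 ^ m * vs L j) ∧ ∀ j, 0 < A j) := by
    intro L
    by_cases hL : L.index = 0
    · exact ⟨fun _ => 1, fun h => absurd hL h⟩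
    · obtain ⟨n', k', hs'⟩ := hsel.sgl L hL
      obtain ⟨A, hA⟩ := majo (vs L) hs'.pos hs'.ord
      exact ⟨A, fun _ => hA⟩
  choose W hW using hmaj
  obtain ⟨A, hA1, hA2, hA3, hA0⟩ := majo a ha0 hs.ord
  obtain ⟨w, hw⟩ : ∃ w : ℝ, w = y ^ 2 := ⟨_, rfl⟩
  have hw1 : 1 ≤ w := by rw [hw]; exact one_le_pow₀ hy
  obtain ⟨P, hP⟩ : ∃ P : ℝ, P = w * Real.exp m := ⟨_, rfl⟩
  have hexp : 1 ≤ Real.exp m := Real.one_le_exp (by linarith)
  have hP1 : 1 ≤ P := by rw [hP]; nlinarith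
  obtain ⟨Q, hQ⟩ : ∃ Q : ℝ, Q = 2 ^ m * (C₁ * R) ^ m * P := ⟨_, rfl⟩
  have hCR1 : 1 ≤ C₁ * R := by nlinarith
  have hCRm : C₁ * R ≤ (C₁ * R) ^ m := le_self_pow₀ hCR1 (by omega)
  have hCRm1 : 1 ≤ (C₁ * R) ^ m := hCR1.trans hCRm
  have hQ1 : C₁ * R ≤ Q := by
    rw [hQ]
    have h1 : (C₁ * R) ^ m ≤ 2 ^ m * (C₁ * R) ^ m := le_mul_of_one_le_left (by linarith) h2m
    have h2 : 2 ^ m * (C₁ * R) ^ m ≤ 2 ^ m * (C₁ * R) ^ m * P :=
      le_mul_of_one_le_right (by positivity) hP1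
    linarith
  obtain ⟨Λ, hΛ⟩ : ∃ Λ : ℝ, Λ = Real.logb 2 Q := ⟨_, rfl⟩
  have hQ0 : 0 < Q := by linarith
  have hΛQ : (2 : ℝ) ^ Λ = Q := by
    rw [hΛ]; exact Real.rpow_logb (by norm_num) (by norm_num) hQ0
  have hΛ0 : 0 ≤ Λ := by rw [hΛ]; exact Real.logb_nonneg (by norm_num) (by linarith)
  -- the classes
  obtain ⟨cond, hcond⟩ : ∃ cond : AddSubgroup (Fin m → ℤ) → Prop, cond = fun L =>
    y ^ 2 / 4 < (L.index : ℝ) ∧ (L.index : ℝ) ≤ y ^ 2 := ⟨_, rfl⟩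
  have hci : ∀ L, cond L → L.index ≠ 0 := by
    intro L hL h0
    rw [hcond] at hL
    have := hL.1
    rw [h0] at this
    push_cast at this
    nlinarith
  have hcP : ∀ L, cond L → ∏ i, vs L i ≤ w * |b.det| := by
    intro L hL
    rw [hPv L (hci L hL)]
    apply mul_le_mul_of_nonneg_right _ (abs_nonneg _)
    rw [hcond] at hL
    rw [hw]
    exact hL.2
  have hdy : ∀ L, cond L → ∀ i, W L i ≤ (2 : ℝ) ^ ⌈Real.logb 2 (W L i)⌉ ∧
      (2 : ℝ) ^ ⌈Real.logb 2 (W L i)⌉ ≤ 2 * W L i ∧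
      -Λ ≤ (⌈Real.logb 2 (W L i)⌉ : ℝ) ∧ (⌈Real.logb 2 (W L i)⌉ : ℝ) ≤ Λ + 1 := by
    intro L hL i
    have hLi := hci L hL
    obtain ⟨w1, w2, w3, w4⟩ := hW L hLi
    have hv1 : ∀ j, 1 ≤ (C₁ * R) * vs L j := by
      intro j
      calc (1 : ℝ) ≤ R * a j := hRa j
        _ ≤ R * (C₁ * vs L j) := mul_le_mul_of_nonneg_left (hCv L hLi j) (by linarith)
        _ = _ := by ring
    apply dyad _ _ (w4 i)
    · rw [hΛQ]
      calc (1 : ℝ) ≤ (C₁ * R) * vs L i := hv1 i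
        _ ≤ Q * W L i := mul_le_mul hQ1 (w2 i) (hvpos L hLi i).le hQ0.le
    · rw [hΛQ]
      have h1 := one_factor (vs L) (C₁ * R) P hv1 hCR1 (hvpos L hLi) (by
        refine (hcP L hL).trans ?_
        rw [hP]
        exact mul_le_mul_of_nonneg_left hdet2 (by linarith)) i
      calc W L i ≤ 2 ^ m * vs L i := w3 i
        _ ≤ 2 ^ m * ((C₁ * R) ^ m * P) := mul_le_mul_of_nonneg_left h1 (by positivity)
        _ = Q := by rw [hQ]; ring
  obtain ⟨κ, hκ⟩ : ∃ κ : AddSubgroup (Fin m → ℤ) → Fin m → ℤ, κ = fun L i =>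
    ⌈Real.logb 2 (W L i)⌉ := ⟨_, rfl⟩
  obtain ⟨E, hE⟩ : ∃ E : ℕ, E = ⌈Λ⌉₊ + 1 := ⟨_, rfl⟩
  have hEl : Λ + 1 ≤ E := by
    rw [hE]; push_cast
    linarith [Nat.le_ceil Λ]
  have hEu : (E : ℝ) ≤ Λ + 2 := by
    rw [hE]; push_cast
    linarith [Nat.ceil_lt_add_one hΛ0]
  obtain ⟨KK, hKK⟩ : ∃ KK : Finset (Fin m → ℤ), KK =
    Fintype.piFinset (fun _ => Finset.Icc (-(E : ℤ)) E) := ⟨_, rfl⟩
  have hcard : (KK.card : ℝ) = (2 * (E : ℝ) + 1) ^ m := by
    rw [hKK, Fintype.card_piFinset]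
    simp only [Int.card_Icc, Finset.prod_const, Finset.card_univ, Fintype.card_fin]
    push_cast
    congr 1
    have : ((E : ℤ) + 1 - -(E : ℤ)).toNat = 2 * E + 1 := by omega
    rw [this]
    push_cast
    ring
  have hmem : ∀ L, cond L → κ L ∈ KK := by
    intro L hL
    rw [hKK, Fintype.mem_piFinset]
    intro i
    rw [Finset.mem_Icc, hκ]
    obtain ⟨-, -, d3, d4⟩ := hdy L hL i
    constructor
    · have : (-(E : ℝ)) ≤ (⌈Real.logb 2 (W L i)⌉ : ℝ) := by linarith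
      exact_mod_cast this
    · have : (⌈Real.logb 2 (W L i)⌉ : ℝ) ≤ (E : ℝ) := by linarith
      exact_mod_cast this
  obtain ⟨F, hF⟩ : ∃ F : AddSubgroup (Fin m → ℤ) → ENNReal, F = fun L =>
    (NL (sel L) : ENNReal) ^ 2 * ENNReal.ofReal (∏ i, ∏ j, (1 + C0 * vs L i / (q * a j))) :=
      ⟨_, rfl⟩
  obtain ⟨B, hB⟩ : ∃ B : ℝ, B = D₀ * (1 + Real.log (H₀ * w)) ^ K₄ *
    (C₇ * w ^ m * (1 + w / (q : ℝ) ^ m) ^ m * (((2 : ℝ) ^ m) ^ (m * m) * skw a)) := ⟨_, rfl⟩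
  have hskw := skw_pos a ha0
  have hclass : ∀ v : Fin m → ℤ, ∑' L : AddSubgroup (Fin m → ℤ),
      (if cond L ∧ κ L = v then F L else 0) ≤ ENNReal.ofReal B := by
    intro v
    by_cases hne : ∃ L, cond L ∧ κ L = v
    · obtain ⟨L₁, hL₁, hκ₁⟩ := hne
      have hmono : Monotone (fun i => (2 : ℝ) ^ (v i)) := by
        intro i j hij
        apply zpow_le_zpow_right₀ (by norm_num)
        rw [← hκ₁, hκ]
        apply Int.ceil_mono
        apply Real.logb_le_logb_of_le (by norm_num) ((hW L₁ (hci L₁ hL₁)).2.2.2 i)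
        exact (hW L₁ (hci L₁ hL₁)).1 hij
      have hq1 : (1 : ℝ) ≤ q := by exact_mod_cast hq
      have h1 := cls (C₁ := C₁) (C0 := C0) hm (by linarith) hC₂ hC₄ hC0 hCNT hMUL hDAV hEGX hC₇ hs
        hdet1 hdet2 hA1 hA2 hA3 (V := fun i => (2 : ℝ) ^ (v i))
        (fun i => zpow_pos (by norm_num) _) hmono hq1 hw1
        {L | cond L ∧ κ L = v} sel vs hsel (fun L hL => hci L hL.1) (fun L hL i => by
          have hLi := hci L hL.1
          obtain ⟨d1, d2, -, -⟩ := hdy L hL.1 i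
          obtain ⟨w1, w2, w3, w4⟩ := hW L hLi
          have e : (2 : ℝ) ^ (v i) = (2 : ℝ) ^ ⌈Real.logb 2 (W L i)⌉ := by
            rw [← hL.2, hκ]
          simp only [e]
          constructor
          · exact (w2 i).trans d1
          · calc _ ≤ 2 * W L i := d2
              _ ≤ 2 * (2 ^ m * vs L i) := by linarith [w3 i]
              _ = 2 ^ (m + 1) * vs L i := by ring)
        (fun L hL i => hCv L (hci L hL.1) i) (fun L hL => hcP L hL.1)
      have e1 : (∑' L : AddSubgroup (Fin m → ℤ), (if cond L ∧ κ L = v then F L else 0)) =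
          ∑' L : AddSubgroup (Fin m → ℤ), (if L ∈ {L | cond L ∧ κ L = v} then
            (NL (sel L) : ENNReal) ^ 2 *
              ENNReal.ofReal (∏ i, ∏ j, (1 + C0 * vs L i / ((q : ℝ) * a j))) else 0) := by
        apply tsum_congr
        intro L
        rw [hF]
        simp only [Set.mem_setOf_eq]
      rw [e1, hB, hD₀, hH₀]
      convert h1
    · have e1 : ∀ L : AddSubgroup (Fin m → ℤ), (if cond L ∧ κ L = v then F L else 0) = 0 := by
        intro L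
        rw [if_neg]
        exact fun h => hne ⟨L, h⟩
      simp only [e1, tsum_zero, zero_le]
  have htot : ∑' L : AddSubgroup (Fin m → ℤ), (if cond L then F L else 0) ≤
      (KK.card : ENNReal) * ENNReal.ofReal B := by
    calc ∑' L : AddSubgroup (Fin m → ℤ), (if cond L then F L else 0) ≤
        ∑' L : AddSubgroup (Fin m → ℤ), ∑ v ∈ KK, (if cond L ∧ κ L = v then F L else 0) := by
          apply ENNReal.tsum_le_tsum
          intro L
          by_cases hL : cond L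
          · rw [if_pos hL]
            have h1 : (if cond L ∧ κ L = κ L then F L else 0) = F L := if_pos ⟨hL, rfl⟩
            calc F L = (if cond L ∧ κ L = κ L then F L else 0) := h1.symm
              _ ≤ _ := Finset.single_le_sum
                (f := fun v => if cond L ∧ κ L = v then F L else 0)
                (fun _ _ => zero_le) (hmem L hL)
          · rw [if_neg hL]; exact zero_le
      _ = ∑ v ∈ KK, ∑' L : AddSubgroup (Fin m → ℤ), (if cond L ∧ κ L = v then F L else 0) :=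
          Summable.tsum_finsetSum (fun _ _ => ENNReal.summable)
      _ ≤ ∑ _v ∈ KK, ENNReal.ofReal B := Finset.sum_le_sum fun v _ => hclass v
      _ = _ := by rw [Finset.sum_const, nsmul_eq_mul]
  have e0 : (∑' L : AddSubgroup (Fin m → ℤ), (if y ^ 2 / 4 < (L.index : ℝ) ∧
      (L.index : ℝ) ≤ y ^ 2 then (NL (sel L) : ENNReal) ^ 2 *
        ENNReal.ofReal (∏ i, ∏ j, (1 + C0 * vs L i / (q * a j))) else 0)) =
      ∑' L : AddSubgroup (Fin m → ℤ), (if cond L then F L else 0) := by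
    apply tsum_congr
    intro L
    by_cases h : cond L
    · have h' := h
      rw [hcond] at h'
      rw [if_pos h, if_pos h', hF]
    · have h' := h
      rw [hcond] at h'
      rw [if_neg h, if_neg h']
  rw [e0]
  refine htot.trans ?_
  rw [show (KK.card : ENNReal) = ENNReal.ofReal (KK.card : ℝ) by
    rw [ENNReal.ofReal_natCast], ← ENNReal.ofReal_mul (Nat.cast_nonneg _), hcard]
  apply ENNReal.ofReal_le_ofReal
  rw [hB, hw]
  apply fin_cmp hC₁1 hH₀1 hD₀0.le (by positivity) hC₇.le hskw.le hy hY (by positivity)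
    (Nat.cast_nonneg E)
  rw [← hR, ← hw, ← hP, ← hQ, ← hΛ]
  exact hEu

end Pool.Agent.H72.GZ
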