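import Pool.Agent.H34.GZ.Targets1
import Mathlib.MeasureTheory.Constructions.HaarToSphere
import Mathlib.MeasureTheory.Measure.Haar.InnerProductSpace

/-!
# Row VO2 of the board gz (MP_52e316_nt): one row of the Siegel set
-/

set_option autoImplicit false

open MeasureTheory MeasureTheory.Measure Set Module

namespace Pool.Agent.H72.GZ

/-- polar coordinates -/
lemma polar_e (ι : Type) [Fintype ι] [Nonempty ι] (f : ℝ → ENNReal) (hf : Measurable f) :
    ∫⁻ x : EuclideanSpace ℝ ι, f ‖x‖ =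
      (volume : Measure (EuclideanSpace ℝ ι)).toSphere univ *
        ∫⁻ t in Ioi (0 : ℝ), f t * ENNReal.ofReal (t ^ (Fintype.card ι - 1)) := by
  have hdim : finrank ℝ (EuclideanSpace ℝ ι) = Fintype.card ι := finrank_euclideanSpace
  obtain ⟨μ, hμ⟩ : ∃ μ : Measure (EuclideanSpace ℝ ι), μ = volume := ⟨_, rfl⟩
  haveI : μ.IsAddHaarMeasure := by rw [hμ]; infer_instance
  rw [← hμ]
  calc ∫⁻ x, f ‖x‖ ∂μ = ∫⁻ x : ({(0)}ᶜ : Set (EuclideanSpace ℝ ι)), f ‖x.1‖ ∂(μ.comap (↑)) := by
        rw [lintegral_subtype_comap (measurableSet_singleton _).compl fun x => f ‖x‖,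
          restrict_compl_singleton]
    _ = ∫⁻ p, f (p.2 : ℝ) ∂(μ.toSphere.prod (volumeIoiPow (finrank ℝ (EuclideanSpace ℝ ι) - 1))) := by
        have h := (μ.measurePreserving_homeomorphUnitSphereProd).lintegral_comp
          (f := fun p => f (p.2 : ℝ)) (hf.comp (measurable_subtype_coe.comp measurable_snd))
        rw [← h]
        apply lintegral_congr
        intro x
        rw [homeomorphUnitSphereProd_apply_snd_coe]
    _ = μ.toSphere univ * ∫⁻ x : Ioi (0 : ℝ), f x
        ∂(volumeIoiPow (finrank ℝ (EuclideanSpace ℝ ι) - 1)) := by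
        have h := lintegral_prod_mul (μ := μ.toSphere)
          (ν := volumeIoiPow (finrank ℝ (EuclideanSpace ℝ ι) - 1)) (f := fun _ => (1 : ENNReal))
          (g := fun x : Ioi (0 : ℝ) => f x) aemeasurable_const
          (hf.comp measurable_subtype_coe).aemeasurable
        simp only [one_mul, lintegral_const] at h
        rw [h]
    _ = _ := by
        congr 1
        rw [hdim]
        unfold volumeIoiPow
        rw [lintegral_withDensity_eq_lintegral_mul]
        · rw [← lintegral_subtype_comap measurableSet_Ioi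
            fun t => f t * ENNReal.ofReal (t ^ (Fintype.card ι - 1))]
          apply lintegral_congr
          intro x
          simp only [Pi.mul_apply]
          rw [mul_comm]
        · exact (measurable_subtype_coe.pow_const _).ennreal_ofReal
        · exact hf.comp measurable_subtype_coe

/-- polar coordinates, functions -/
lemma polar (ι : Type) [Fintype ι] [Nonempty ι] (f : ℝ → ENNReal) (hf : Measurable f) :
    ∫⁻ x : ι → ℝ, f (Real.sqrt (∑ l, x l ^ 2)) =
      (volume : Measure (EuclideanSpace ℝ ι)).toSphere univ *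
        ∫⁻ t in Ioi (0 : ℝ), f t * ENNReal.ofReal (t ^ (Fintype.card ι - 1)) := by
  rw [← polar_e ι f hf]
  have h := (PiLp.volume_preserving_ofLp ι).lintegral_comp
    (f := fun x : ι → ℝ => f (Real.sqrt (∑ l, x l ^ 2)))
    (hf.comp (by fun_prop))
  rw [← h]
  apply lintegral_congr
  intro x
  rw [EuclideanSpace.norm_eq]
  simp only [Real.norm_eq_abs, sq_abs]

/-- the first coordinates -/
def eqv (m i : ℕ) (h : i ≤ m) : Fin i ≃ {l : Fin m // (l : ℕ) < i} where
  toFun j := ⟨Fin.castLE h j, j.2⟩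
  invFun l := ⟨l.1, l.2⟩
  left_inv _ := rfl
  right_inv _ := rfl

open Pool.Agent.H34.GZ in
theorem pf_VO2 : T_VO2 := by
  intro m i him
  classical
  have hne : Nonempty {l : Fin m // ¬ (l : ℕ) < i} := ⟨⟨⟨i, him⟩, by simp⟩⟩
  have hcard : Fintype.card {l : Fin m // ¬ (l : ℕ) < i} = m - i := by
    have h1 := Fintype.card_subtype_compl (fun l : Fin m => (l : ℕ) < i)
    rw [Fintype.card_fin, ← Fintype.card_congr (eqv m i him.le), Fintype.card_fin] at h1
    convert h1
  obtain ⟨M, hM⟩ : ∃ M : ENNReal, M =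
      (volume : Measure (EuclideanSpace ℝ {l : Fin m // ¬ (l : ℕ) < i})).toSphere univ := ⟨_, rfl⟩
  have hMt : M ≠ ⊤ := by rw [hM]; exact measure_ne_top _ _
  refine ⟨M.toReal + 1, by positivity, ?_⟩
  intro u a f hf ha hu
  -- the orthonormal basis
  obtain ⟨v, hv⟩ : ∃ v : Fin m → EuclideanSpace ℝ (Fin m), v = fun l : Fin m =>
      if h : (l : ℕ) < i then WithLp.toLp 2 (u ⟨l, h⟩) else 0 := ⟨_, rfl⟩
  have hin : ∀ j l : Fin i, inner ℝ (WithLp.toLp 2 (u j) : EuclideanSpace ℝ (Fin m))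
      (WithLp.toLp 2 (u l)) = if j = l then (1 : ℝ) else 0 := by
    intro j l
    rw [← hu j l, EuclideanSpace.inner_eq_star_dotProduct]
    simp [dotProduct, mul_comm]
  have hon : Orthonormal ℝ (Set.domRestrict {l : Fin m | (l : ℕ) < i} v) := by
    rw [orthonormal_iff_ite]
    intro x y
    have hx : ((x : Fin m) : ℕ) < i := x.2
    have hy : ((y : Fin m) : ℕ) < i := y.2
    simp only [Set.domRestrict_apply, hv]
    rw [dif_pos hx, dif_pos hy, hin]
    congr 1
    rw [Fin.mk.injEq, Subtype.ext_iff, Fin.ext_iff]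
  obtain ⟨b, hb⟩ := hon.exists_orthonormalBasis_extension_of_card_eq
    (by rw [finrank_euclideanSpace])
  have hbj : ∀ j : Fin i, b (Fin.castLE him.le j) = WithLp.toLp 2 (u j) := by
    intro j
    have hj : ((Fin.castLE him.le j : Fin m) : ℕ) < i := j.2
    rw [hb _ hj, hv]
    simp only
    rw [dif_pos hj]
    rfl
  -- the integrand
  obtain ⟨G, hG⟩ : ∃ G : (Fin m → ℝ) → ENNReal, G = fun w =>
      if ∀ j, |∑ t, w t * u j t| ≤ a j / 2 then
        f (Real.sqrt (∑ t, w t ^ 2 - ∑ j, (∑ t, w t * u j t) ^ 2)) else 0 := ⟨_, rfl⟩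
  have hGm : Measurable G := by
    rw [hG]
    apply Measurable.ite
    · have e : {w : Fin m → ℝ | ∀ j, |∑ t, w t * u j t| ≤ a j / 2} =
          ⋂ j, {w | |∑ t, w t * u j t| ≤ a j / 2} := by ext; simp
      rw [e]
      exact MeasurableSet.iInter fun j => measurableSet_le (by fun_prop) measurable_const
    · exact hf.comp (by fun_prop)
    · exact measurable_const
  have h1 : ∫⁻ w, G w = ∫⁻ s : Fin m → ℝ, G (WithLp.ofLp (b.repr.symm (WithLp.toLp 2 s))) := by
    have m1 : Measurable (fun x : EuclideanSpace ℝ (Fin m) => G (WithLp.ofLp x)) :=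
      hGm.comp (PiLp.volume_preserving_ofLp (Fin m)).measurable
    have m2 : Measurable (fun y : EuclideanSpace ℝ (Fin m) => G (WithLp.ofLp (b.repr.symm y))) :=
      m1.comp b.measurePreserving_repr_symm.measurable
    rw [← (PiLp.volume_preserving_ofLp (Fin m)).lintegral_comp hGm,
      ← b.measurePreserving_repr_symm.lintegral_comp m1,
      ← (PiLp.volume_preserving_toLp (Fin m)).lintegral_comp m2]
  have h2 : ∀ s : Fin m → ℝ, G (WithLp.ofLp (b.repr.symm (WithLp.toLp 2 s))) =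
      if ∀ j : Fin i, |s (Fin.castLE him.le j)| ≤ a j / 2 then
        f (Real.sqrt (∑ l, s l ^ 2 - ∑ j : Fin i, s (Fin.castLE him.le j) ^ 2)) else 0 := by
    intro s
    obtain ⟨x, hx⟩ : ∃ x, x = b.repr.symm (WithLp.toLp 2 s) := ⟨_, rfl⟩
    have hx' : b.repr x = WithLp.toLp 2 s := by rw [hx]; exact b.repr.apply_symm_apply _
    rw [← hx]
    have e1 : ∀ j : Fin i, ∑ t, WithLp.ofLp x t * u j t = s (Fin.castLE him.le j) := by
      intro j
      have e2 := b.repr_apply_apply x (Fin.castLE him.le j)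
      rw [hx', hbj, EuclideanSpace.inner_eq_star_dotProduct] at e2
      simp only [star_trivial] at e2
      rw [e2]
      rfl
    have e2 : ∑ t, WithLp.ofLp x t ^ 2 = ∑ l, s l ^ 2 := by
      have e3 : ‖x‖ = ‖(WithLp.toLp 2 s : EuclideanSpace ℝ (Fin m))‖ := by
        rw [← hx', b.repr.norm_map]
      rw [EuclideanSpace.norm_eq, EuclideanSpace.norm_eq] at e3
      have e4 := congrArg (fun r : ℝ => r ^ 2) e3
      simp only [Real.norm_eq_abs, sq_abs] at e4
      rw [Real.sq_sqrt (Finset.sum_nonneg fun _ _ => sq_nonneg _),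
        Real.sq_sqrt (Finset.sum_nonneg fun _ _ => sq_nonneg _)] at e4
      exact e4
    rw [hG]
    simp only [e1, e2]
  -- splitting
  obtain ⟨H₁, hH₁⟩ : ∃ H₁ : ({l : Fin m // (l : ℕ) < i} → ℝ) → ENNReal, H₁ =
      (Set.pi univ fun l : {l : Fin m // (l : ℕ) < i} =>
        Icc (-(a ⟨l.1, l.2⟩ / 2)) (a ⟨l.1, l.2⟩ / 2)).indicator 1 := ⟨_, rfl⟩
  obtain ⟨H₂, hH₂⟩ : ∃ H₂ : ({l : Fin m // ¬ (l : ℕ) < i} → ℝ) → ENNReal, H₂ =
      fun z => f (Real.sqrt (∑ l, z l ^ 2)) := ⟨_, rfl⟩
  have hH₁m : Measurable H₁ := by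
    rw [hH₁]
    exact measurable_one.indicator (MeasurableSet.univ_pi fun l => measurableSet_Icc)
  have hH₂m : Measurable H₂ := by
    rw [hH₂]
    exact hf.comp (by fun_prop)
  have h3 : ∀ s : Fin m → ℝ, G (WithLp.ofLp (b.repr.symm (WithLp.toLp 2 s))) =
      (fun z : ({l : Fin m // (l : ℕ) < i} → ℝ) × ({l : Fin m // ¬ (l : ℕ) < i} → ℝ) =>
        H₁ z.1 * H₂ z.2) (MeasurableEquiv.piEquivPiSubtypeProd (fun _ : Fin m => ℝ)
          (fun l : Fin m => (l : ℕ) < i) s) := by
    intro s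
    rw [h2]
    have e1 : (MeasurableEquiv.piEquivPiSubtypeProd (fun _ : Fin m => ℝ)
          (fun l : Fin m => (l : ℕ) < i) s) = (fun l => s l.1, fun l => s l.1) := rfl
    rw [e1]
    simp only
    have e2 : ∑ l : {l : Fin m // (l : ℕ) < i}, s l.1 ^ 2 =
        ∑ j : Fin i, s (Fin.castLE him.le j) ^ 2 :=
      (Fintype.sum_equiv (eqv m i him.le) _ _ fun j => rfl).symm
    have e3 := Fintype.sum_subtype_add_sum_subtype (fun l : Fin m => (l : ℕ) < i)
      (fun l => s l ^ 2)
    have e4 : ∑ l, s l ^ 2 - ∑ j : Fin i, s (Fin.castLE him.le j) ^ 2 =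
        ∑ l : {l : Fin m // ¬ (l : ℕ) < i}, s l.1 ^ 2 := by
      rw [← e3, e2]; ring
    rw [e4]
    have e5 : H₁ (fun l => s l.1) = if ∀ j : Fin i, |s (Fin.castLE him.le j)| ≤ a j / 2 then 1
        else 0 := by
      rw [hH₁]
      by_cases h : ∀ j : Fin i, |s (Fin.castLE him.le j)| ≤ a j / 2
      · rw [if_pos h, Set.indicator_of_mem]
        · rfl
        · intro l _
          have h4 := h ⟨l.1, l.2⟩
          exact abs_le.1 h4
      · rw [if_neg h, Set.indicator_of_notMem]
        intro h4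
        apply h
        intro j
        exact abs_le.2 (h4 (eqv m i him.le j) (mem_univ _))
    rw [e5, hH₂]
    by_cases h : ∀ j : Fin i, |s (Fin.castLE him.le j)| ≤ a j / 2
    · rw [if_pos h, if_pos h, one_mul]
    · rw [if_neg h, if_neg h, zero_mul]
  have hpres := volume_preserving_piEquivPiSubtypeProd (fun _ : Fin m => ℝ)
    (fun l : Fin m => (l : ℕ) < i)
  have h4 : ∫⁻ w, G w = (∫⁻ y, H₁ y) * ∫⁻ z, H₂ z := by
    rw [h1, lintegral_congr h3, hpres.lintegral_comp
      (f := fun z : ({l : Fin m // (l : ℕ) < i} → ℝ) × ({l : Fin m // ¬ (l : ℕ) < i} → ℝ) =>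
        H₁ z.1 * H₂ z.2) ((hH₁m.comp measurable_fst).mul (hH₂m.comp measurable_snd))]
    exact lintegral_prod_mul hH₁m.aemeasurable hH₂m.aemeasurable
  have h5 : ∫⁻ y, H₁ y = ENNReal.ofReal (∏ j, a j) := by
    rw [hH₁, lintegral_indicator_one (MeasurableSet.univ_pi fun l => measurableSet_Icc),
      volume_pi_pi, ENNReal.ofReal_prod_of_nonneg fun j _ => (ha j).le]
    refine (Fintype.prod_equiv (eqv m i him.le) _ _ fun j => ?_).symm
    rw [Real.volume_Icc]
    congr 1
    show a j = a j / 2 - -(a j / 2)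
    ring
  have h6 : ∫⁻ z, H₂ z = M * ∫⁻ t in Set.Ioi (0 : ℝ), f t * ENNReal.ofReal (t ^ (m - 1 - i)) := by
    rw [hH₂, polar _ f hf, hM, hcard]
    have e : m - i - 1 = m - 1 - i := by omega
    rw [e]
  rw [hG] at h4
  rw [h4, h5, h6, ← mul_assoc]
  apply mul_le_mul_left
  rw [mul_comm, ENNReal.ofReal_mul (by positivity)]
  apply mul_le_mul_left
  calc M = ENNReal.ofReal M.toReal := (ENNReal.ofReal_toReal hMt).symm
    _ ≤ ENNReal.ofReal (M.toReal + 1) := ENNReal.ofReal_le_ofReal (by linarith)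

end Pool.Agent.H72.GZ
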