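import Pool.Agent.H72.GZ.EGYa

/-!
# Row EGY of the board gz (MP_52e316_nt): one dyadic class
-/

set_option autoImplicit false

open Pool.Agent.H34.GM Pool.Agent.H34.GZ

namespace Pool.Agent.H72.GZ

lemma vb_row {m : ℕ} (x : ZM m) (b : Mat m) (i : Fin m) : vb (x i) b = (cR x * b) i := by
  funext j
  unfold vb cR
  rw [Matrix.vecMul, dotProduct, Matrix.mul_apply]
  rfl

lemma det_cR {m : ℕ} (x : ZM m) : (cR x).det = (x.det : ℝ) := by
  unfold cR
  have := (Int.castRingHom ℝ).map_det x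
  rw [RingHom.mapMatrix_apply] at this
  exact this.symm

/-- a product of factors `1 + x` -/
lemma prod_one_add {m : ℕ} (x y : Fin m → Fin m → ℝ) (D : ℝ) (hx : ∀ i j, 0 ≤ x i j)
    (hy : ∀ i j, 0 ≤ y i j) (hD : 1 ≤ D) (h : ∀ i j, x i j ≤ D * y i j) :
    ∏ i, ∏ j, (1 + x i j) ≤ D ^ (m * m) * ∏ i, ∏ j, (1 + y i j) := by
  have h1 : ∏ i, ∏ j, (1 + x i j) ≤ ∏ i : Fin m, ∏ j : Fin m, (D * (1 + y i j)) := by
    apply Finset.prod_le_prod
    · intro i _
      exact Finset.prod_nonneg fun j _ => by linarith [hx i j]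
    · intro i _
      apply Finset.prod_le_prod
      · intro j _; linarith [hx i j]
      · intro j _
        rw [mul_add, mul_one]
        linarith [h i j]
  refine h1.trans (le_of_eq ?_)
  simp only [Finset.prod_mul_distrib, Finset.prod_const, Finset.card_univ, Fintype.card_fin,
    ← pow_mul]

open Classical in
/-- one class -/
theorem cls {m : ℕ} (hm : 1 ≤ m) {C₁ C₂ C₄ C₇ C0 : ℝ} {K₄ : ℕ} (hC₁ : 0 < C₁) (hC₂ : 1 ≤ C₂)
    (hC₄ : 0 < C₄) (hC0 : 0 ≤ C0) (hCNT : T_CNT)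
    (hMUL : ∀ (b : Mat m) (v : Fin m → ℝ),
      (∀ i, 0 < v i) → Monotone v → ∀ (S : Set (AddSubgroup (Fin m → ℤ)))
      (sel : AddSubgroup (Fin m → ℤ) → ZM m),
      (∀ L ∈ S, (sel L).det ≠ 0 ∧ AddSubgroup.closure (Set.range (sel L)) = L ∧
        ∀ i, rowN (vb (sel L i) b) ≤ v i) →
      ∀ f : ZM m → ENNReal, (∀ x u : ZM m, IsUnit u → f (u * x) = f x) →
        ENNReal.ofReal (skw v) * ∑' L : S, f (sel L) ≤
          ∑' x : ZM m, if inBox b (fun i => C₂ * v i) x then f x else 0)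
    (hDAV : ∀ (b n : Mat m) (a : Fin m → ℝ) (k : Mat m), Sgl b n a k →
      ∀ v : Fin m → ℝ, (∀ i, 0 < v i) → Monotone v → ∀ H : ℝ, 1 ≤ H →
      (∀ x : ZM m, inBox b v x → |(x.det : ℝ)| ≤ H) →
        ∑' x : ZM m, (if inBox b v x then (NL x : ENNReal) ^ 2 else 0) ≤
          ENNReal.ofReal (C₄ * (1 + Real.log H) ^ K₄ * ∏ i, ∏ j, (1 + v i / a j)))
    (hEGX : ∀ (V A : Fin m → ℝ) (q w : ℝ), (∀ i, 0 < V i) → (∀ i, 0 < A i) → Monotone V →
      Monotone A → 1 ≤ q → 0 < w → (∀ i, A i ≤ (2 ^ m * C₁ + (2 ^ (m + 1)) ^ m) * V i) →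
      ∏ i, V i ≤ (2 ^ m * C₁ + (2 ^ (m + 1)) ^ m) * w * ∏ i, A i →
      ∏ i, ∏ j, ((1 + V i / A j) * (1 + V i / (q * A j))) ≤
        C₇ * w ^ m * (1 + w / q ^ m) ^ m * skw A * skw V)
    (hC₇ : 0 < C₇)
    {b n : Mat m} {a : Fin m → ℝ} {k : Mat m} (hs : Sgl b n a k) (hdet1 : 1 ≤ |b.det|)
    (hdet2 : |b.det| ≤ Real.exp m) {A : Fin m → ℝ} (hA1 : Monotone A) (hA2 : ∀ j, a j ≤ A j)
    (hA3 : ∀ j, A j ≤ 2 ^ m * a j) {V : Fin m → ℝ} (hV0 : ∀ i, 0 < V i) (hV : Monotone V)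
    {q w : ℝ} (hq : 1 ≤ q) (hw : 1 ≤ w)
    (S : Set (AddSubgroup (Fin m → ℤ))) (sel : AddSubgroup (Fin m → ℤ) → ZM m)
    (vs : AddSubgroup (Fin m → ℤ) → Fin m → ℝ) (hsel : Sel b sel vs)
    (hS1 : ∀ L ∈ S, L.index ≠ 0) (hS2 : ∀ L ∈ S, ∀ i, vs L i ≤ V i ∧ V i ≤ 2 ^ (m + 1) * vs L i)
    (hS3 : ∀ L ∈ S, ∀ i, a i ≤ C₁ * vs L i) (hS4 : ∀ L ∈ S, ∏ i, vs L i ≤ w * |b.det|) :
    ∑' L : AddSubgroup (Fin m → ℤ), (if L ∈ S then
      (NL (sel L) : ENNReal) ^ 2 * ENNReal.ofReal (∏ i, ∏ j, (1 + C0 * vs L i / (q * a j)))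
        else 0) ≤
      ENNReal.ofReal ((1 + C0 * 2 ^ m) ^ (m * m) *
        (1 + C₂ * (m * 2 ^ m) * 2 ^ m) ^ (m * m) * C₄ *
        (1 + Real.log (m.factorial * (C₂ * (m * 2 ^ m) * 2 ^ (m + 1)) ^ m * Real.exp m * w)) ^ K₄ *
        (C₇ * w ^ m * (1 + w / q ^ m) ^ m * (((2 : ℝ) ^ m) ^ (m * m) * skw a))) := by
  have hm0 : (1 : ℝ) ≤ m := by exact_mod_cast hm
  have ha : ∀ i, 0 < a i := hs.pos
  have hA0 : ∀ i, 0 < A i := fun i => (ha i).trans_le (hA2 i)
  have h2m : (1 : ℝ) ≤ 2 ^ m := one_le_pow₀ (by norm_num)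
  have h2m1 : (1 : ℝ) ≤ 2 ^ (m + 1) := one_le_pow₀ (by norm_num)
  have hprodA : |b.det| = ∏ j, a j := (hCNT m b n a k hs).2.2.2
  rcases S.eq_empty_or_nonempty with hSe | ⟨L₀, hL₀⟩
  · have : ∀ L : AddSubgroup (Fin m → ℤ), (if L ∈ S then
      (NL (sel L) : ENNReal) ^ 2 * ENNReal.ofReal (∏ i, ∏ j, (1 + C0 * vs L i / (q * a j)))
        else 0) = 0 := fun L => by rw [if_neg (by rw [hSe]; exact fun h => h)]
    simp only [this, tsum_zero, zero_le]
  -- the product of the `V i`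
  have hPV : ∏ i, V i ≤ (2 ^ (m + 1)) ^ m * (w * |b.det|) := by
    calc ∏ i, V i ≤ ∏ i, (2 ^ (m + 1) * vs L₀ i) :=
          Finset.prod_le_prod (fun i _ => (hV0 i).le) fun i _ => (hS2 L₀ hL₀ i).2
      _ = (2 ^ (m + 1)) ^ m * ∏ i, vs L₀ i := by
          rw [Finset.prod_mul_distrib]; simp
      _ ≤ _ := mul_le_mul_of_nonneg_left (hS4 L₀ hL₀) (by positivity)
  obtain ⟨M, hM⟩ : ∃ M : ℝ, M = m * 2 ^ m := ⟨_, rfl⟩
  have hM1 : 1 ≤ M := by rw [hM]; nlinarith
  obtain ⟨v, hv⟩ : ∃ v : Fin m → ℝ, v = fun i => M * V i := ⟨_, rfl⟩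
  have hv0 : ∀ i, 0 < v i := fun i => by rw [hv]; exact mul_pos (by linarith) (hV0 i)
  have hvm : Monotone v := fun i j h => by
    rw [hv]; exact mul_le_mul_of_nonneg_left (hV h) (by linarith)
  obtain ⟨v', hv'⟩ : ∃ v' : Fin m → ℝ, v' = fun i => C₂ * v i := ⟨_, rfl⟩
  have hv'0 : ∀ i, 0 < v' i := fun i => by rw [hv']; exact mul_pos (by linarith) (hv0 i)
  have hv'm : Monotone v' := fun i j h => by
    rw [hv']; exact mul_le_mul_of_nonneg_left (hvm h) (by linarith)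
  have hv'e : ∀ i, v' i = C₂ * M * V i := fun i => by rw [hv', hv]; ring
  -- the box
  obtain ⟨H, hH⟩ : ∃ H : ℝ, H = m.factorial * (C₂ * M * 2 ^ (m + 1)) ^ m * Real.exp m * w :=
    ⟨_, rfl⟩
  have hfac : (1 : ℝ) ≤ m.factorial := by exact_mod_cast Nat.one_le_iff_ne_zero.2 (Nat.factorial_ne_zero m)
  have hexp : 1 ≤ Real.exp m := Real.one_le_exp (by linarith)
  have hCM : 1 ≤ C₂ * M := by nlinarith
  have hCM2 : 1 ≤ (C₂ * M * 2 ^ (m + 1)) ^ m := one_le_pow₀ (by nlinarith)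
  have hH1 : 1 ≤ H := by
    rw [hH]
    have h1 : 1 ≤ m.factorial * (C₂ * M * 2 ^ (m + 1)) ^ m := by nlinarith
    have h2 : 1 ≤ m.factorial * (C₂ * M * 2 ^ (m + 1)) ^ m * Real.exp m := by nlinarith
    nlinarith
  have hbox : ∀ x : ZM m, inBox b v' x → |(x.det : ℝ)| ≤ H := by
    intro x hx
    have h1 := det_le (cR x * b)
    have h2 : ∏ i, rowN ((cR x * b) i) ≤ ∏ i, v' i := by
      apply Finset.prod_le_prod
      · intro i _; unfold rowN; positivity
      · intro i _; rw [← vb_row]; exact hx.2 i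
    have h3 : ∏ i, v' i = (C₂ * M) ^ m * ∏ i, V i := by
      simp only [hv'e]
      rw [Finset.prod_mul_distrib]; simp
    rw [Matrix.det_mul, abs_mul, det_cR] at h1
    calc |(x.det : ℝ)| ≤ |(x.det : ℝ)| * |b.det| := le_mul_of_one_le_right (abs_nonneg _) hdet1
      _ ≤ m.factorial * ∏ i, v' i := h1.trans (mul_le_mul_of_nonneg_left h2 (by positivity))
      _ ≤ m.factorial * ((C₂ * M) ^ m * ((2 ^ (m + 1)) ^ m * (w * Real.exp m))) := by
          rw [h3]
          apply mul_le_mul_of_nonneg_left _ (by positivity)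
          apply mul_le_mul_of_nonneg_left _ (by positivity)
          refine hPV.trans ?_
          apply mul_le_mul_of_nonneg_left _ (by positivity)
          exact mul_le_mul_of_nonneg_left hdet2 (by linarith)
      _ = H := by rw [hH, mul_pow]; ring
  -- the two inputs
  have i1 := hMUL b v hv0 hvm S sel (fun L hL => ⟨hsel.det L (hS1 L hL), hsel.gen L (hS1 L hL),
    fun i => by
      obtain ⟨n', k', hs'⟩ := hsel.sgl L (hS1 L hL)
      have h1 := (hCNT m _ n' (vs L) k' hs').2.1 i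
      rw [vb_row, hv]
      refine h1.trans ?_
      rw [← hM]
      exact mul_le_mul_of_nonneg_left (hS2 L hL i).1 (by linarith)⟩)
    (fun x => (NL x : ENNReal) ^ 2) (fun x u hu => by simp only [NL_unit x u hu])
  rw [← hv'] at i1
  have i2 := hDAV b n a k hs v' hv'0 hv'm H hH1 hbox
  have i3 := i1.trans i2
  have hskv : skw v = skw V := by rw [hv]; exact skw_smul V M (by linarith)
  rw [hskv] at i3
  -- the products
  obtain ⟨P₁, hP₁⟩ : ∃ P₁ : ℝ, P₁ = ∏ i, ∏ j, (1 + V i / A j) := ⟨_, rfl⟩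
  obtain ⟨P₂, hP₂⟩ : ∃ P₂ : ℝ, P₂ = ∏ i, ∏ j, (1 + V i / (q * A j)) := ⟨_, rfl⟩
  have hqp : 0 < q := by linarith
  have hnn1 : ∀ i j, 0 ≤ V i / A j := fun i j => (div_pos (hV0 i) (hA0 j)).le
  have hnn2 : ∀ i j, 0 ≤ V i / (q * A j) := fun i j =>
    (div_pos (hV0 i) (mul_pos hqp (hA0 j))).le
  have hP₁0 : 0 ≤ P₁ := by
    rw [hP₁]
    exact Finset.prod_nonneg fun i _ => Finset.prod_nonneg fun j _ => by linarith [hnn1 i j]
  have hP₂0 : 0 ≤ P₂ := by
    rw [hP₂]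
    exact Finset.prod_nonneg fun i _ => Finset.prod_nonneg fun j _ => by linarith [hnn2 i j]
  have hinv : ∀ j, 1 / a j ≤ 2 ^ m / A j := by
    intro j
    rw [div_le_div_iff₀ (ha j) (hA0 j), one_mul]
    exact hA3 j
  have j1 : ∏ i, ∏ j, (1 + v' i / a j) ≤ (1 + C₂ * M * 2 ^ m) ^ (m * m) * P₁ := by
    rw [hP₁]
    apply prod_one_add (fun i j => v' i / a j) (fun i j => V i / A j) _
      (fun i j => (div_pos (hv'0 i) (ha j)).le) hnn1 (by nlinarith)
    intro i j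
    rw [hv'e]
    calc C₂ * M * V i / a j = C₂ * M * V i * (1 / a j) := by ring
      _ ≤ C₂ * M * V i * (2 ^ m / A j) := by
          apply mul_le_mul_of_nonneg_left (hinv j)
          exact mul_nonneg (by linarith) (hV0 i).le
      _ = C₂ * M * 2 ^ m * (V i / A j) := by ring
      _ ≤ (1 + C₂ * M * 2 ^ m) * (V i / A j) :=
          mul_le_mul_of_nonneg_right (by linarith) (hnn1 i j)
  have j2 : ∀ L ∈ S, ∏ i, ∏ j, (1 + C0 * vs L i / (q * a j)) ≤
      (1 + C0 * 2 ^ m) ^ (m * m) * P₂ := by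
    intro L hL
    obtain ⟨n', k', hs'⟩ := hsel.sgl L (hS1 L hL)
    rw [hP₂]
    apply prod_one_add (fun i j => C0 * vs L i / (q * a j)) (fun i j => V i / (q * A j)) _
      (fun i j => div_nonneg (mul_nonneg hC0 (hs'.pos i).le) (mul_pos hqp (ha j)).le) hnn2
      (by nlinarith)
    intro i j
    calc C0 * vs L i / (q * a j) = C0 * vs L i / q * (1 / a j) := by
          rw [div_mul_div_comm, mul_one]
      _ ≤ C0 * V i / q * (2 ^ m / A j) := by
          apply mul_le_mul _ (hinv j) (by have := ha j; positivity)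
            (div_nonneg (mul_nonneg hC0 (hV0 i).le) hqp.le)
          apply div_le_div_of_nonneg_right _ hqp.le
          exact mul_le_mul_of_nonneg_left (hS2 L hL i).1 hC0
      _ = C0 * 2 ^ m * (V i / (q * A j)) := by rw [div_mul_div_comm]; ring
      _ ≤ (1 + C0 * 2 ^ m) * (V i / (q * A j)) :=
          mul_le_mul_of_nonneg_right (by linarith) (hnn2 i j)
  have j3 : P₁ * P₂ ≤ C₇ * w ^ m * (1 + w / q ^ m) ^ m * skw A * skw V := by
    have h1 := hEGX V A q w hV0 hA0 hV hA1 hq (by linarith) (fun i => by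
      calc A i ≤ 2 ^ m * a i := hA3 i
        _ ≤ 2 ^ m * (C₁ * vs L₀ i) := mul_le_mul_of_nonneg_left (hS3 L₀ hL₀ i) (by positivity)
        _ ≤ 2 ^ m * (C₁ * V i) := by
            apply mul_le_mul_of_nonneg_left _ (by positivity)
            exact mul_le_mul_of_nonneg_left (hS2 L₀ hL₀ i).1 hC₁.le
        _ = 2 ^ m * C₁ * V i := by ring
        _ ≤ _ := by
            apply mul_le_mul_of_nonneg_right _ (hV0 i).le
            have : (0 : ℝ) < (2 ^ (m + 1)) ^ m := by positivity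
            linarith) (by
      calc ∏ i, V i ≤ (2 ^ (m + 1)) ^ m * (w * |b.det|) := hPV
        _ = (2 ^ (m + 1)) ^ m * w * ∏ i, a i := by rw [hprodA]; ring
        _ ≤ (2 ^ m * C₁ + (2 ^ (m + 1)) ^ m) * w * ∏ i, A i := by
            apply mul_le_mul _ _ (Finset.prod_nonneg fun i _ => (ha i).le) (by positivity)
            · apply mul_le_mul_of_nonneg_right _ (by linarith)
              have : (0 : ℝ) < 2 ^ m * C₁ := by positivity
              linarith
            · exact Finset.prod_le_prod (fun i _ => (ha i).le) fun i _ => hA2 i)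
    rw [hP₁, hP₂, ← Finset.prod_mul_distrib]
    simp only [← Finset.prod_mul_distrib]
    exact h1
  -- the sum of the class
  obtain ⟨T, hT⟩ : ∃ T : ENNReal, T = ∑' L : S, (NL (sel L) : ENNReal) ^ 2 := ⟨_, rfl⟩
  have k1 : ∑' L : AddSubgroup (Fin m → ℤ), (if L ∈ S then
      (NL (sel L) : ENNReal) ^ 2 * ENNReal.ofReal (∏ i, ∏ j, (1 + C0 * vs L i / (q * a j)))
        else 0) ≤ T * ENNReal.ofReal ((1 + C0 * 2 ^ m) ^ (m * m) * P₂) := by
    calc _ = ∑' L : S, (NL (sel L) : ENNReal) ^ 2 *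
          ENNReal.ofReal (∏ i, ∏ j, (1 + C0 * vs L i / (q * a j))) := by
          rw [tsum_subtype S (fun L => (NL (sel L) : ENNReal) ^ 2 *
            ENNReal.ofReal (∏ i, ∏ j, (1 + C0 * vs L i / (q * a j))))]
          apply tsum_congr
          intro L
          rw [Set.indicator_apply]
      _ ≤ ∑' L : S, (NL (sel L) : ENNReal) ^ 2 *
          ENNReal.ofReal ((1 + C0 * 2 ^ m) ^ (m * m) * P₂) := by
          apply ENNReal.tsum_le_tsum
          intro L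
          exact mul_le_mul_right (ENNReal.ofReal_le_ofReal (j2 L L.2)) _
      _ = _ := by rw [ENNReal.tsum_mul_right, hT]
  have hskV := skw_pos V hV0
  have k2 : ENNReal.ofReal (skw V) * (T * ENNReal.ofReal ((1 + C0 * 2 ^ m) ^ (m * m) * P₂)) ≤
      ENNReal.ofReal (skw V) * ENNReal.ofReal ((1 + C0 * 2 ^ m) ^ (m * m) *
        (1 + C₂ * M * 2 ^ m) ^ (m * m) * C₄ * (1 + Real.log H) ^ K₄ *
        (C₇ * w ^ m * (1 + w / q ^ m) ^ m * (((2 : ℝ) ^ m) ^ (m * m) * skw a))) := by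
    have hlog : 0 ≤ Real.log H := Real.log_nonneg hH1
    calc ENNReal.ofReal (skw V) * (T * ENNReal.ofReal ((1 + C0 * 2 ^ m) ^ (m * m) * P₂))
        = ENNReal.ofReal (skw V) * T * ENNReal.ofReal ((1 + C0 * 2 ^ m) ^ (m * m) * P₂) := by
          rw [mul_assoc]
      _ ≤ ENNReal.ofReal (C₄ * (1 + Real.log H) ^ K₄ * ((1 + C₂ * M * 2 ^ m) ^ (m * m) * P₁)) *
          ENNReal.ofReal ((1 + C0 * 2 ^ m) ^ (m * m) * P₂) := by
          apply mul_le_mul_left
          rw [hT]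
          refine i3.trans (ENNReal.ofReal_le_ofReal ?_)
          exact mul_le_mul_of_nonneg_left j1 (by positivity)
      _ = ENNReal.ofReal ((1 + C0 * 2 ^ m) ^ (m * m) *
        (1 + C₂ * M * 2 ^ m) ^ (m * m) * C₄ * (1 + Real.log H) ^ K₄ * (P₁ * P₂)) := by
          rw [← ENNReal.ofReal_mul (by positivity)]
          congr 1
          ring
      _ ≤ ENNReal.ofReal ((1 + C0 * 2 ^ m) ^ (m * m) *
        (1 + C₂ * M * 2 ^ m) ^ (m * m) * C₄ * (1 + Real.log H) ^ K₄ *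
        (C₇ * w ^ m * (1 + w / q ^ m) ^ m * (((2 : ℝ) ^ m) ^ (m * m) * skw a) * skw V)) := by
          apply ENNReal.ofReal_le_ofReal
          apply mul_le_mul_of_nonneg_left _ (by positivity)
          refine j3.trans ?_
          apply mul_le_mul_of_nonneg_right _ hskV.le
          apply mul_le_mul_of_nonneg_left (skw_le a A ha hA2 hA3) (by positivity)
      _ = _ := by
          rw [← ENNReal.ofReal_mul hskV.le]
          congr 1
          ring
  have k3 := (ENNReal.mul_le_mul_iff_right (by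
    rw [Ne, ENNReal.ofReal_eq_zero, not_le]; exact hskV) ENNReal.ofReal_ne_top).1 k2
  rw [hH, hM] at k3
  exact k1.trans k3

end Pool.Agent.H72.GZ
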